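import Pool.Agent.Helper185.SilverFinal

/-!
If one of the three Borel selection classes is closed under finite powers, then the
continuum hypothesis fails.
-/

namespace Pool.Agent.Results.MP_d59834_gt.ClosureRefutesCH

open Pool.Agent.Helper185.Sel

/-- If at least one of the three classes is closed under finite powers, then the continuum
hypothesis fails. -/
theorem result :
    ((∀ X : Set ℝ, S1 (OmegaOf (BorelFam X)) (GammaOf (BorelFam X)) →
        ∀ k : ℕ, 1 ≤ k →
          S1 (OmegaOf (BorelFam (Fin k → X))) (GammaOf (BorelFam (Fin k → X)))) ∨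
      (∀ X : Set ℝ, S1 (OmegaOf (BorelFam X)) (OmegaOf (BorelFam X)) →
        ∀ k : ℕ, 1 ≤ k →
          S1 (OmegaOf (BorelFam (Fin k → X))) (OmegaOf (BorelFam (Fin k → X)))) ∨
      (∀ X : Set ℝ, Sfin (OmegaOf (BorelFam X)) (OmegaOf (BorelFam X)) →
        ∀ k : ℕ, 1 ≤ k →
          Sfin (OmegaOf (BorelFam (Fin k → X))) (OmegaOf (BorelFam (Fin k → X))))) →
      Cardinal.aleph 1 ≠ Cardinal.continuum.{0} := by
  intro h hCH
  obtain ⟨X, ⟨h1, h2, h3⟩, h4, h5, h6⟩ := Pool.Agent.Helper185.Silver.powers hCH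
  rcases h with h | h | h
  · exact h4 (h X h1 2 (by norm_num))
  · exact h5 (h X h2 2 (by norm_num))
  · exact h6 (h X h3 2 (by norm_num))

end Pool.Agent.Results.MP_d59834_gt.ClosureRefutesCH
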