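import Pool.Agent.Helper185.SilverFinal
import Pool.Agent.Helper292.ForceCH

/-!
Finite powers of the Borel selection classes, from the continuum hypothesis.
-/

namespace Pool.Agent.Results.MP_d59834_gt.ConsistentlyNotPowers

open Pool.Agent.Helper185.Sel

theorem under_ch : Cardinal.aleph 1 = Cardinal.continuum.{0} →
    ∃ X : Set ℝ,
      (S1 (OmegaOf (BorelFam X)) (GammaOf (BorelFam X)) ∧
        S1 (OmegaOf (BorelFam X)) (OmegaOf (BorelFam X)) ∧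
        Sfin (OmegaOf (BorelFam X)) (OmegaOf (BorelFam X))) ∧
      ¬ S1 (OmegaOf (BorelFam (Fin 2 → X))) (GammaOf (BorelFam (Fin 2 → X))) ∧
      ¬ S1 (OmegaOf (BorelFam (Fin 2 → X))) (OmegaOf (BorelFam (Fin 2 → X))) ∧
      ¬ Sfin (OmegaOf (BorelFam (Fin 2 → X))) (OmegaOf (BorelFam (Fin 2 → X))) :=
  Pool.Agent.Helper185.Silver.powers

theorem result :
    (∃ (P : Type) (_ : Preorder P), Nonempty P ∧ ∀ p : P,
      p ∈ Pool.Agent.Helper292.ForceCH.OmegaOnePreserved P ∧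
      p ∈ Pool.Agent.Helper292.ForceCH.CHHolds P) ∧
    (Cardinal.aleph 1 = Cardinal.continuum.{0} →
    ∃ X : Set ℝ,
      (S1 (OmegaOf (BorelFam X)) (GammaOf (BorelFam X)) ∧
        S1 (OmegaOf (BorelFam X)) (OmegaOf (BorelFam X)) ∧
        Sfin (OmegaOf (BorelFam X)) (OmegaOf (BorelFam X))) ∧
      ¬ S1 (OmegaOf (BorelFam (Fin 2 → X))) (GammaOf (BorelFam (Fin 2 → X))) ∧
      ¬ S1 (OmegaOf (BorelFam (Fin 2 → X))) (OmegaOf (BorelFam (Fin 2 → X))) ∧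
      ¬ Sfin (OmegaOf (BorelFam (Fin 2 → X))) (OmegaOf (BorelFam (Fin 2 → X)))) := by
  refine ⟨?_, under_ch⟩
  obtain ⟨P, i, h1, h2⟩ := Pool.Agent.Helper292.ForceCH.exists_forcing
  exact ⟨P, i, h1, fun p => ⟨(h2 p).1, (h2 p).2.2⟩⟩

end Pool.Agent.Results.MP_d59834_gt.ConsistentlyNotPowers
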