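import Pool.Agent.Helper185.SilverFinal

/-!
Finite powers of the Borel selection classes, from the continuum hypothesis.
-/

namespace Pool.Agent.Results.MP_d59834_gt.PowersCH

open Pool.Agent.Helper185.Sel

/-- The continuum hypothesis gives one set of reals that lies in all three classes and whose
square lies in none of them. -/
theorem result : Cardinal.aleph 1 = Cardinal.continuum.{0} →
    ∃ X : Set ℝ,
      (S1 (OmegaOf (BorelFam X)) (GammaOf (BorelFam X)) ∧
        S1 (OmegaOf (BorelFam X)) (OmegaOf (BorelFam X)) ∧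
        Sfin (OmegaOf (BorelFam X)) (OmegaOf (BorelFam X))) ∧
      ¬ S1 (OmegaOf (BorelFam (Fin 2 → X))) (GammaOf (BorelFam (Fin 2 → X))) ∧
      ¬ S1 (OmegaOf (BorelFam (Fin 2 → X))) (OmegaOf (BorelFam (Fin 2 → X))) ∧
      ¬ Sfin (OmegaOf (BorelFam (Fin 2 → X))) (OmegaOf (BorelFam (Fin 2 → X))) :=
  Pool.Agent.Helper185.Silver.powers

end Pool.Agent.Results.MP_d59834_gt.PowersCH
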